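import Pool.Agent.H27.G.R_seed8.Y25.VK.MobA

set_option autoImplicit false

/-!
Project VK (helper957), job MOB: from the smoothed sum to the sum; asymptotics.
-/

open Complex Filter Topology Set MeasureTheory Metric
open scoped Real

namespace Pool.Agent.Y25.VK

/-- the coefficients -/
noncomputable def aa (τ : ℝ) (n : ℕ) : ℂ :=
  ((ArithmeticFunction.moebius n : ℤ) : ℂ) * (n : ℂ) ^ (-(τ : ℂ) * Complex.I)

lemma aa_norm (τ : ℝ) {n : ℕ} (hn : n ≠ 0) : ‖aa τ n‖ ≤ 1 := by
  unfold aa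
  rw [norm_mul]
  have h1 : ‖(n : ℂ) ^ (-(τ : ℂ) * Complex.I)‖ = 1 := by
    rw [Complex.norm_natCast_cpow_of_pos (Nat.pos_of_ne_zero hn)]
    simp
  have h2 : ‖((ArithmeticFunction.moebius n : ℤ) : ℂ)‖ ≤ 1 := by
    rw [← Complex.ofReal_intCast, Complex.norm_real, Real.norm_eq_abs]
    exact_mod_cast ArithmeticFunction.abs_moebius_le_one
  rw [h1, mul_one]
  exact h2

lemma term_aa (τ : ℝ) {n : ℕ} (hn : n ≠ 0) : LSeries.term Mu ⟨0, τ⟩ n = aa τ n := by
  rw [LSeries.term_of_ne_zero hn]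
  unfold aa Mu
  have h1 : (⟨0, τ⟩ : ℂ) = τ * Complex.I := by apply Complex.ext <;> simp
  rw [h1, div_eq_mul_inv, ← Complex.cpow_neg, neg_mul]

lemma RS_fin (τ : ℝ) {N : ℕ} (hN : 1 ≤ N) {v : ℝ} (hv : v ≤ Real.log N + 1) :
    RS τ v = ∑ n ∈ Finset.Icc 1 (3 * N), aa τ n * ((max (v - Real.log n) 0 : ℝ) : ℂ) := by
  unfold RS
  rw [tsum_eq_sum (s := Finset.Icc 1 (3 * N))]
  · refine Finset.sum_congr rfl fun n hn => ?_
    rw [term_aa τ (by have := (Finset.mem_Icc.1 hn).1; omega)]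
  · intro n hn
    rcases Nat.eq_zero_or_pos n with rfl | h0
    · simp
    · have h3 : 3 * N < n := by
        by_contra h
        exact hn (Finset.mem_Icc.2 ⟨h0, not_lt.1 h⟩)
      have h4 : Real.log N + 1 ≤ Real.log n := by
        have hN0 : (0 : ℝ) < N := by exact_mod_cast hN
        have h5 : Real.exp 1 * N ≤ n := by
          have h6 : (3 * N : ℝ) < n := by exact_mod_cast h3
          nlinarith [Real.exp_one_lt_d9]
        have h7 := Real.log_le_log (by positivity) h5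
        rw [Real.log_mul (Real.exp_pos _).ne' hN0.ne', Real.log_exp] at h7
        linarith
      rw [max_eq_right (by linarith)]
      simp

theorem unsmooth (τ : ℝ) {N : ℕ} (hN : 1 ≤ N) {h : ℝ} (h0 : 0 < h) (h1 : h ≤ 1) :
    ‖∑ n ∈ Finset.Icc 1 N, aa τ n‖ ≤
      (‖RS τ (Real.log N + h)‖ + ‖RS τ (Real.log N)‖) / h + 2 * h * N := by
  set L := Real.log N with hL
  have hN0 : (0 : ℝ) < N := by exact_mod_cast hN
  set φ : ℕ → ℝ := fun n => max (L + h - Real.log n) 0 - max (L - Real.log n) 0 with hφ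
  have hφ1 : ∀ n : ℕ, 1 ≤ n → n ≤ N → φ n = h := by
    intro n hn1 hn
    have hn0 : (0 : ℝ) < n := by exact_mod_cast hn1
    have h2 : Real.log n ≤ L := Real.log_le_log hn0 (by exact_mod_cast hn)
    simp only [hφ]
    rw [max_eq_left (by linarith), max_eq_left (by linarith)]
    ring
  set F := ⌊(N : ℝ) * Real.exp h⌋₊ with hF
  have hφ2 : ∀ n : ℕ, N < n → |φ n| ≤ if n ≤ F then h else 0 := by
    intro n hn
    have hn0 : (0 : ℝ) < n := by exact_mod_cast (by omega : 0 < n)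
    have h2 : L ≤ Real.log n := Real.log_le_log hN0 (by exact_mod_cast hn.le)
    simp only [hφ]
    rw [max_eq_right (by linarith : L - Real.log n ≤ 0), sub_zero, abs_of_nonneg (le_max_right _ _)]
    split_ifs with h3
    · exact max_le (by linarith) h0.le
    · apply max_le _ le_rfl
      have h4 : (N : ℝ) * Real.exp h < n := (Nat.floor_lt (by positivity)).1 (not_le.1 h3)
      have h5 := Real.log_le_log (by positivity) h4.le
      rw [Real.log_mul hN0.ne' (Real.exp_pos _).ne', Real.log_exp] at h5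
      linarith
  have hdiff : RS τ (L + h) - RS τ L =
      ∑ n ∈ Finset.Icc 1 (3 * N), aa τ n * ((φ n : ℝ) : ℂ) := by
    rw [RS_fin τ hN (by linarith), RS_fin τ hN (by linarith), ← Finset.sum_sub_distrib]
    refine Finset.sum_congr rfl fun n _ => ?_
    simp only [hφ]
    push_cast
    ring
  rw [← Finset.sum_filter_add_sum_filter_not (Finset.Icc 1 (3 * N)) (fun n => n ≤ N)] at hdiff
  have hfil : (Finset.Icc 1 (3 * N)).filter (fun n => n ≤ N) = Finset.Icc 1 N := by
    ext n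
    simp only [Finset.mem_filter, Finset.mem_Icc]
    omega
  rw [hfil] at hdiff
  have hmain : ∑ n ∈ Finset.Icc 1 N, aa τ n * ((φ n : ℝ) : ℂ) =
      (h : ℂ) * ∑ n ∈ Finset.Icc 1 N, aa τ n := by
    rw [Finset.mul_sum]
    refine Finset.sum_congr rfl fun n hn => ?_
    rw [Finset.mem_Icc] at hn
    rw [hφ1 n hn.1 hn.2, mul_comm]
  rw [hmain] at hdiff
  set rem := ∑ n ∈ (Finset.Icc 1 (3 * N)).filter (fun n => ¬ n ≤ N), aa τ n * ((φ n : ℝ) : ℂ)
    with hrem
  have hNF : N ≤ F := by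
    apply Nat.le_floor
    have := Real.add_one_le_exp h
    nlinarith
  have hremb : ‖rem‖ ≤ 2 * h * N * h := by
    calc ‖rem‖ ≤ ∑ n ∈ (Finset.Icc 1 (3 * N)).filter (fun n => ¬ n ≤ N),
          if n ≤ F then h else 0 := by
          refine norm_sum_le_of_le _ fun n hn => ?_
          rw [Finset.mem_filter, Finset.mem_Icc] at hn
          rw [norm_mul, Complex.norm_real, Real.norm_eq_abs]
          have h2 := aa_norm τ (by omega : n ≠ 0)
          have h3 := hφ2 n (not_le.1 hn.2)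
          calc ‖aa τ n‖ * |φ n| ≤ 1 * |φ n| := mul_le_mul_of_nonneg_right h2 (abs_nonneg _)
            _ ≤ _ := by rw [one_mul]; exact h3
      _ = (((Finset.Icc 1 (3 * N)).filter (fun n => ¬ n ≤ N)).filter (fun n => n ≤ F)).card *
          h := by
          rw [← Finset.sum_filter, Finset.sum_const, nsmul_eq_mul]
      _ ≤ ((Finset.Ioc N F).card : ℝ) * h := by
          apply mul_le_mul_of_nonneg_right _ h0.le
          norm_cast
          apply Finset.card_le_card
          intro n hn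
          simp only [Finset.mem_filter, Finset.mem_Icc, Finset.mem_Ioc] at hn ⊢
          omega
      _ ≤ (2 * h * N) * h := by
          apply mul_le_mul_of_nonneg_right _ h0.le
          rw [Nat.card_Ioc, Nat.cast_sub hNF]
          have h2 : (F : ℝ) ≤ N * Real.exp h := Nat.floor_le (by positivity)
          have h3 : Real.exp h - 1 ≤ 2 * h := by
            have h4 := Real.abs_exp_sub_one_le (x := h) (by rw [abs_of_pos h0]; exact h1)
            rw [abs_of_pos h0] at h4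
            exact (le_abs_self _).trans h4
          nlinarith
  have hS : (h : ℂ) * ∑ n ∈ Finset.Icc 1 N, aa τ n = RS τ (L + h) - RS τ L - rem := by
    rw [hdiff]
    ring
  have hS2 : h * ‖∑ n ∈ Finset.Icc 1 N, aa τ n‖ ≤
      ‖RS τ (L + h)‖ + ‖RS τ L‖ + 2 * h * N * h := by
    have h2 : ‖(h : ℂ) * ∑ n ∈ Finset.Icc 1 N, aa τ n‖ = h * ‖∑ n ∈ Finset.Icc 1 N, aa τ n‖ := by
      rw [norm_mul, Complex.norm_real, Real.norm_of_nonneg h0.le]
    rw [← h2, hS]
    exact (norm_sub_le _ _).trans (add_le_add (norm_sub_le _ _) hremb)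
  have hfin : ‖∑ n ∈ Finset.Icc 1 N, aa τ n‖ ≤
      (‖RS τ (L + h)‖ + ‖RS τ L‖ + 2 * h * N * h) / h := by
    rw [le_div_iff₀ h0, mul_comm]
    exact hS2
  refine hfin.trans (le_of_eq ?_)
  field_simp

theorem asym (δ K0 D : ℝ) (hδ : 0 < δ) (hD : 1 ≤ D) (K : ℕ) : ∃ L1 : ℝ, 1 ≤ L1 ∧
    ∀ L : ℝ, L1 ≤ L → L ^ (2 * K) * ((D * L) ^ K0 * Real.exp (-((D * L) ^ (δ - 1) / 2 * L)) +
      (D * L) ^ K0 * Real.exp (-(2 * L)) + (L + 1) * Real.exp (-L)) ≤ 1 := by
  have hD0 : 0 < D := by linarith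
  have hDL : Tendsto (fun L : ℝ => D * L) atTop atTop := tendsto_id.const_mul_atTop hD0
  have t1 : Tendsto (fun L : ℝ => (D * L) ^ (((2 * K : ℕ) : ℝ) + K0) *
      Real.exp (-(1 / (2 * D)) * (D * L) ^ δ)) atTop (𝓝 0) := by
    have h1 := (tendsto_rpow_mul_exp_neg_mul_atTop_nhds_zero ((((2 * K : ℕ) : ℝ) + K0) / δ)
      (1 / (2 * D)) (by positivity)).comp ((tendsto_rpow_atTop hδ).comp hDL)
    refine h1.congr' ?_
    filter_upwards [eventually_ge_atTop 1] with L hL
    have hDL0 : 0 ≤ D * L := by positivity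
    simp only [Function.comp]
    rw [← Real.rpow_mul hDL0, mul_div_cancel₀ _ hδ.ne']
  have t2 : Tendsto (fun L : ℝ => (D * L) ^ (((2 * K : ℕ) : ℝ) + K0) *
      Real.exp (-(2 / D) * (D * L))) atTop (𝓝 0) :=
    (tendsto_rpow_mul_exp_neg_mul_atTop_nhds_zero (((2 * K : ℕ) : ℝ) + K0)
      (2 / D) (by positivity)).comp hDL
  have t3 : Tendsto (fun L : ℝ => 2 * (L ^ (2 * K + 1) * Real.exp (-L))) atTop (𝓝 0) := by
    have h1 := (Real.tendsto_pow_mul_exp_neg_atTop_nhds_zero (2 * K + 1)).const_mul 2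
    rwa [mul_zero] at h1
  have t := (t1.add t2).add t3
  rw [add_zero, add_zero] at t
  obtain ⟨L1, hL1⟩ := eventually_atTop.1 (t.eventually (eventually_le_nhds one_pos))
  refine ⟨max L1 1, le_max_right _ _, fun L hL => ?_⟩
  have hLL1 := (le_max_left _ _).trans hL
  have hL1' : 1 ≤ L := (le_max_right _ _).trans hL
  have hL0 : 0 < L := by linarith
  refine le_trans ?_ (hL1 L hLL1)
  have hDLpos : 0 < D * L := by positivity
  have e0 : L ^ (2 * K) * (D * L) ^ K0 ≤ (D * L) ^ (((2 * K : ℕ) : ℝ) + K0) := by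
    rw [Real.rpow_add hDLpos, Real.rpow_natCast]
    apply mul_le_mul_of_nonneg_right _ (by positivity)
    apply pow_le_pow_left₀ hL0.le
    nlinarith
  have e1 : (D * L) ^ (δ - 1) / 2 * L = 1 / (2 * D) * (D * L) ^ δ := by
    have h1 : (D * L) ^ δ = (D * L) ^ (δ - 1) * (D * L) := by
      rw [← Real.rpow_add_one hDLpos.ne']
      congr 1
      ring
    rw [h1]
    field_simp
  have e2 : 2 * L = 2 / D * (D * L) := by field_simp
  rw [mul_add, mul_add]
  have i1 : L ^ (2 * K) * ((D * L) ^ K0 * Real.exp (-((D * L) ^ (δ - 1) / 2 * L))) ≤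
      (D * L) ^ (((2 * K : ℕ) : ℝ) + K0) * Real.exp (-(1 / (2 * D)) * (D * L) ^ δ) := by
    rw [e1, ← mul_assoc, ← neg_mul]
    exact mul_le_mul_of_nonneg_right e0 (Real.exp_pos _).le
  have i2 : L ^ (2 * K) * ((D * L) ^ K0 * Real.exp (-(2 * L))) ≤
      (D * L) ^ (((2 * K : ℕ) : ℝ) + K0) * Real.exp (-(2 / D) * (D * L)) := by
    rw [← mul_assoc, neg_mul, ← e2]
    exact mul_le_mul_of_nonneg_right e0 (Real.exp_pos _).le
  have i3 : L ^ (2 * K) * ((L + 1) * Real.exp (-L)) ≤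
      2 * (L ^ (2 * K + 1) * Real.exp (-L)) := by
    have h1 : 2 * (L ^ (2 * K + 1) * Real.exp (-L)) = L ^ (2 * K) * ((2 * L) * Real.exp (-L)) := by
      ring
    rw [h1]
    apply mul_le_mul_of_nonneg_left _ (by positivity)
    apply mul_le_mul_of_nonneg_right _ (Real.exp_pos _).le
    linarith
  exact add_le_add (add_le_add i1 i2) i3

end Pool.Agent.Y25.VK
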