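import Pool.Agent.H27.G.R_seed8.Y25.VK.MobB
import Pool.Agent.H27.G.R_seed8.Y25.VK.MobC

set_option autoImplicit false

/-!
Project VK (helper957), job MOB: twisted sums of the Moebius function.
-/

open Complex Filter Topology Set MeasureTheory Metric
open scoped Real

namespace Pool.Agent.Y25.VK

open Pool.Agent.Y957.VK (S_INV S_MOB)

/-- Job MOB. -/
theorem mob (hinv : S_INV) : S_MOB := by
  intro A K
  obtain ⟨δ, K0, T₀, hδ, hδ1, hK0, hT₀, hb⟩ := RS_bound hinv
  set D := Real.log (4 + T₀) + ((A + 1 : ℕ) : ℝ) with hD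
  have hlog4 : 0 ≤ Real.log (4 + T₀) := Real.log_nonneg (by linarith)
  have hA1 : (1 : ℝ) ≤ ((A + 1 : ℕ) : ℝ) := by
    push_cast
    linarith [Nat.cast_nonneg (α := ℝ) A]
  have hD1 : 1 ≤ D := by linarith
  obtain ⟨L1, hL1, hasym⟩ := asym δ K0 D hδ hD1 K
  refine ⟨290 + L1 ^ K, fun N τ hN hτ => ?_⟩
  have hN0 : (0 : ℝ) < N := by exact_mod_cast (by omega : 0 < N)
  have hN1 : (1 : ℝ) ≤ N := by exact_mod_cast (by omega : 1 ≤ N)
  set L := Real.log N with hL
  have hL0 : 0 < L := Real.log_pos (by exact_mod_cast (by omega : 1 < N))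
  change ‖∑ n ∈ Finset.Icc 1 N, aa τ n‖ ≤ (290 + L1 ^ K) * N / L ^ K
  have hexpL : Real.exp L = N := Real.exp_log hN0
  rcases le_or_gt L1 L with hLL | hLL
  · have hLge1 : 1 ≤ L := hL1.trans hLL
    have hRS : ∀ v, L ≤ v → v ≤ L + 1 → ‖RS τ v‖ ≤ 144 * N / L ^ (2 * K) := by
      intro v hv1 hv2
      have hev : Real.exp v ≤ 3 * N := by
        calc Real.exp v ≤ Real.exp (L + 1) := Real.exp_le_exp.2 hv2
          _ = N * Real.exp 1 := by rw [Real.exp_add, hexpL]
          _ ≤ 3 * N := by nlinarith [Real.exp_one_lt_d9]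
      have hNA : (N : ℝ) ^ A ≤ (N : ℝ) ^ (A + 1) := pow_le_pow_right₀ hN1 (by omega)
      have hNA1 : (N : ℝ) ≤ (N : ℝ) ^ (A + 1) := by
        calc (N : ℝ) = (N : ℝ) ^ 1 := (pow_one _).symm
          _ ≤ _ := pow_le_pow_right₀ hN1 (by omega)
      have hNpos : 0 < (N : ℝ) ^ (A + 1) := by positivity
      have hNge1 : 1 ≤ (N : ℝ) ^ (A + 1) := hN1.trans hNA1
      have hT1 : T₀ ≤ (4 + T₀) * (N : ℝ) ^ (A + 1) := by nlinarith
      have hT2 : |τ| + Real.exp v ≤ (4 + T₀) * (N : ℝ) ^ (A + 1) := by nlinarith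
      have hlogT : Real.log ((4 + T₀) * (N : ℝ) ^ (A + 1)) =
          Real.log (4 + T₀) + ((A + 1 : ℕ) : ℝ) * L := by
        rw [Real.log_mul (by linarith) hNpos.ne', Real.log_pow]
      have h1 := hb τ v (Real.exp v) ((4 + T₀) * (N : ℝ) ^ (A + 1)) (by linarith)
        (Real.one_le_exp (by linarith)) hT1 hT2
      rw [hlogT] at h1
      set ll := Real.log (4 + T₀) + ((A + 1 : ℕ) : ℝ) * L with hll
      have hll1 : 1 ≤ ll := by nlinarith
      have hllD : ll ≤ D * L := by
        rw [hll, hD, add_mul]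
        nlinarith
      have k1 : ll ^ K0 ≤ (D * L) ^ K0 := Real.rpow_le_rpow (by linarith) hllD (by linarith)
      have k2 : (D * L) ^ (δ - 1) ≤ ll ^ (δ - 1) :=
        Real.rpow_le_rpow_of_nonpos (by linarith) hllD (by linarith)
      have hDLpos : 0 < D * L := by positivity
      have k3 : Real.exp (-(ll ^ (δ - 1) / 2 * v)) ≤
          Real.exp (-((D * L) ^ (δ - 1) / 2 * L)) := by
        apply Real.exp_le_exp.2
        apply neg_le_neg
        have : 0 < (D * L) ^ (δ - 1) := Real.rpow_pos_of_pos hDLpos _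
        exact mul_le_mul (by linarith) hv1 hL0.le (by linarith)
      have k4 : ll ^ K0 / Real.exp v ^ 2 ≤ (D * L) ^ K0 * Real.exp (-(2 * L)) := by
        rw [div_eq_mul_inv, ← Real.exp_nat_mul, ← Real.exp_neg]
        apply mul_le_mul k1 _ (Real.exp_pos _).le (Real.rpow_nonneg hDLpos.le _)
        apply Real.exp_le_exp.2
        push_cast
        linarith
      have k5 : v / Real.exp v ≤ (L + 1) * Real.exp (-L) := by
        rw [div_eq_mul_inv, ← Real.exp_neg]
        exact mul_le_mul hv2 (Real.exp_le_exp.2 (by linarith)) (Real.exp_pos _).le (by linarith)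
      have k6 : ll ^ K0 * Real.exp (-(ll ^ (δ - 1) / 2 * v)) ≤
          (D * L) ^ K0 * Real.exp (-((D * L) ^ (δ - 1) / 2 * L)) :=
        mul_le_mul k1 k3 (Real.exp_pos _).le (Real.rpow_nonneg hDLpos.le _)
      have h2 := hasym L hLL
      set Ψ := (D * L) ^ K0 * Real.exp (-((D * L) ^ (δ - 1) / 2 * L)) +
        (D * L) ^ K0 * Real.exp (-(2 * L)) + (L + 1) * Real.exp (-L) with hΨ
      have hΨ0 : 0 ≤ Ψ := by positivity
      have hLK : 0 < L ^ (2 * K) := by positivity
      rw [le_div_iff₀ hLK]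
      have h3 : ‖RS τ v‖ ≤ 48 * (3 * N) * Ψ := by
        refine h1.trans ?_
        have hll0 : 0 < ll := by linarith
        have hv0 : 0 < v := by linarith
        have hp1 : 0 ≤ ll ^ K0 := Real.rpow_nonneg hll0.le _
        apply mul_le_mul _ _ (by positivity) (by positivity)
        · linarith
        · rw [hΨ]
          linarith
      calc ‖RS τ v‖ * L ^ (2 * K) ≤ 48 * (3 * N) * Ψ * L ^ (2 * K) :=
            mul_le_mul_of_nonneg_right h3 hLK.le
        _ = 144 * N * (L ^ (2 * K) * Ψ) := by ring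
        _ ≤ 144 * N * 1 := mul_le_mul_of_nonneg_left h2 (by positivity)
        _ = _ := mul_one _
    have hLK : 0 < L ^ K := by positivity
    have hh0 : 0 < 1 / L ^ K := by positivity
    have hh1 : 1 / L ^ K ≤ 1 := by
      rw [div_le_one hLK]
      exact one_le_pow₀ hLge1
    have h1 := unsmooth τ (by omega : 1 ≤ N) hh0 hh1
    have h2 := hRS (L + 1 / L ^ K) (by linarith) (by linarith)
    have h3 := hRS L le_rfl (by linarith)
    have h4 : (‖RS τ (L + 1 / L ^ K)‖ + ‖RS τ L‖) / (1 / L ^ K) ≤ 288 * N / L ^ K := by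
      rw [div_le_iff₀ hh0]
      have h5 : 288 * (N : ℝ) / L ^ K * (1 / L ^ K) = 144 * N / L ^ (2 * K) +
          144 * N / L ^ (2 * K) := by
        rw [two_mul, pow_add]
        field_simp
        ring
      rw [h5]
      exact add_le_add h2 h3
    have h6 : 2 * (1 / L ^ K) * (N : ℝ) = 2 * N / L ^ K := by ring
    have h7 : (288 * N / L ^ K + 2 * N / L ^ K : ℝ) = 290 * N / L ^ K := by ring
    have h8 : 290 * (N : ℝ) / L ^ K ≤ (290 + L1 ^ K) * N / L ^ K := by
      apply div_le_div_of_nonneg_right _ hLK.le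
      have : 0 ≤ L1 ^ K * (N : ℝ) := by positivity
      linarith
    linarith
  · have h1 : ‖∑ n ∈ Finset.Icc 1 N, aa τ n‖ ≤ N := by
      calc ‖∑ n ∈ Finset.Icc 1 N, aa τ n‖ ≤ ∑ n ∈ Finset.Icc 1 N, (1 : ℝ) := by
            refine norm_sum_le_of_le _ fun n hn => aa_norm τ ?_
            have := (Finset.mem_Icc.1 hn).1
            omega
        _ = N := by simp
    refine h1.trans ?_
    have hLK : 0 < L ^ K := by positivity
    rw [le_div_iff₀ hLK]
    have h2 : L ^ K ≤ L1 ^ K := pow_le_pow_left₀ hL0.le hLL.le K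
    nlinarith

end Pool.Agent.Y25.VK
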